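import Mathlib
import Pool.Agent.Helper18.Peb.Basic

set_option autoImplicit false

/-!
PB-7a: collecting pebbles.
-/

namespace Pool.Agent.Helper90.PB

open Finset
open Pool.Agent.Helper18.Peb

/-- pebbles of a set `A` all of whose vertices are within `m` of `r` -/
theorem collect {V : Type} [DecidableEq V] {G : SimpleGraph V} (P : V → ℕ) (A : Finset V) (m : ℕ)
    (r : V) (h : ∀ x ∈ A, Rch G m x r) :
    Solvable G (fun x => if x ∈ A then P x else 0) (Pi.single r (∑ x ∈ A, P x / 2 ^ m)) := by
  have h1 : (fun x => if x ∈ A then P x else 0) = ∑ x ∈ A, (Pi.single x (P x) : V → ℕ) := by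
    funext y
    rw [Finset.sum_apply, Finset.sum_pi_single]
  have h2 : (Pi.single r (∑ x ∈ A, P x / 2 ^ m) : V → ℕ) =
      ∑ x ∈ A, (Pi.single r (P x / 2 ^ m) : V → ℕ) := by
    funext y
    rw [Finset.sum_apply]
    by_cases hy : y = r
    · subst hy
      simp
    · simp [hy]
  rw [h1, h2]
  exact solvable_sum A _ _ fun x hx => (h x hx).solv (Nat.div_mul_le_self _ _)

/-- the same from the whole configuration -/
theorem collect' {V : Type} [DecidableEq V] {G : SimpleGraph V} (P : V → ℕ) (A : Finset V) (m : ℕ)
    (r : V) (h : ∀ x ∈ A, Rch G m x r) :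
    Solvable G P (Pi.single r (∑ x ∈ A, P x / 2 ^ m)) := by
  refine (collect P A m r h).mono ?_ (le_refl _)
  intro x
  by_cases hx : x ∈ A
  · simp [hx]
  · simp [hx]

/-- collecting in all stars at once -/
theorem collect_reg {V S : Type} [Fintype V] [DecidableEq V] [Fintype S] [DecidableEq S]
    {G : SimpleGraph V} (reg : V → Option S) (z : S → V) (m : ℕ)
    (h : ∀ x σ, reg x = some σ → Rch G m x (z σ)) (P : V → ℕ) :
    Solvable G P (∑ σ, Pi.single (z σ) (∑ x with reg x = some σ, P x / 2 ^ m)) := by
  have h1 := solvable_sum (G := G) (Finset.univ : Finset S)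
    (fun σ => (fun x => if x ∈ Finset.univ.filter (fun x => reg x = some σ) then P x else 0))
    (fun σ => (Pi.single (z σ) (∑ x with reg x = some σ, P x / 2 ^ m) : V → ℕ))
    (fun σ _ => collect P _ m (z σ) (fun x hx => h x σ (Finset.mem_filter.1 hx).2))
  refine h1.mono ?_ (le_refl _)
  intro x
  rw [Finset.sum_apply]
  simp only [Finset.mem_filter, Finset.mem_univ, true_and]
  cases hx : reg x with
  | none => simp
  | some τ =>
    have h2 : ∀ σ : S, (if (some τ : Option S) = some σ then P x else 0) =
        if τ = σ then P x else 0 := by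
      intro σ
      simp only [Option.some.injEq]
    rw [Finset.sum_congr rfl (fun σ _ => h2 σ), Finset.sum_ite_eq]
    simp

end Pool.Agent.Helper90.PB
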